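import Pool.Agent.helper27.CHS.Spec

/-!
Project chs (MP_5628fe_nt), row CK: what the check of the block data gives (the proof of CKE, helper52/SX/CKE.lean).
-/

set_option autoImplicit false

open Finset

namespace Pool.Agent.CHS

open Finset Pool.Agent.SX

theorem CK_frc {β : Type} (n : ℕ) (f : ℕ → β) : frc n f = f n := by
  cases n <;> rfl

theorem CK_allB (n : ℕ) (p : ℕ → Bool) : allB n p = true → ∀ i < n, p i = true := by
  induction n with
  | zero => intro _ i hi; omega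
  | succ n ih =>
    intro h i hi
    have h' : and (p n) (allB n p) = true := h
    rw [Bool.and_eq_true] at h'
    rcases Nat.lt_succ_iff_lt_or_eq.1 hi with h1 | h1
    · exact ih h'.2 i h1
    · rw [h1]
      exact h'.1

theorem CK_exp {y d : ℝ} (h0 : 0 ≤ y) (h1 : y ≤ 1)
    (h : 1 + y + y ^ 2 / 2 + y ^ 3 / 6 + y ^ 4 / 24 + y ^ 5 / 96 ≤ d) : Real.exp y ≤ d := by
  refine le_trans (Real.exp_bound' h0 h1 (n := 5) (by norm_num)) (le_trans ?_ h)
  have h5 : 0 ≤ y ^ 5 := pow_nonneg h0 5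
  simp only [Finset.sum_range_succ, Finset.sum_range_zero, Nat.factorial]
  push_cast
  nlinarith

theorem CK_step {S l x e e' : ℝ} {k : ℕ} (hS : 0 < S) (hl : 0 ≤ l)
    (he : Real.exp x * ((l / S) ^ k / (k.factorial : ℝ)) ≤ e / S)
    (h : e * l ≤ e' * ((k + 1) * S)) :
    Real.exp x * ((l / S) ^ (k + 1) / ((k + 1).factorial : ℝ)) ≤ e' / S := by
  have hk : (0 : ℝ) < (k : ℝ) + 1 := by positivity
  have h1 : Real.exp x * ((l / S) ^ (k + 1) / ((k + 1).factorial : ℝ)) =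
      Real.exp x * ((l / S) ^ k / (k.factorial : ℝ)) * (l / S / (k + 1)) := by
    rw [Nat.factorial_succ, pow_succ]
    push_cast
    have hf : (k.factorial : ℝ) ≠ 0 := by positivity
    field_simp
  rw [h1]
  have h2 : 0 ≤ l / S / (k + 1) := by positivity
  refine le_trans (mul_le_mul_of_nonneg_right he h2) ?_
  rw [div_div, div_mul_div_comm, div_le_div_iff₀ (by positivity) hS]
  nlinarith [mul_le_mul_of_nonneg_right h hS.le]

theorem CK_cast (s x d : ℕ) (h : 96 * s ^ 5 + 96 * x * s ^ 4 + 48 * x ^ 2 * s ^ 3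
    + 16 * x ^ 3 * s ^ 2 + 4 * x ^ 4 * s + x ^ 5 ≤ d * (96 * s ^ 4)) :
    96 * (s : ℝ) ^ 5 + 96 * x * (s : ℝ) ^ 4 + 48 * (x : ℝ) ^ 2 * (s : ℝ) ^ 3
    + 16 * (x : ℝ) ^ 3 * (s : ℝ) ^ 2 + 4 * (x : ℝ) ^ 4 * s + (x : ℝ) ^ 5 ≤
      d * (96 * (s : ℝ) ^ 4) := by
  exact_mod_cast h

theorem CK (hEB : EB_stmt) : CK_stmt := by
  intro l E s t h40 hst hsig hchk
  unfold chkE at hchk
  rw [CK_frc, Bool.and_eq_true, Bool.and_eq_true] at hchk
  obtain ⟨hc1, hc2, hc3⟩ := hchk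
  rw [Nat.ble_eq] at hc1 hc2
  set N : ℕ := 2 ^ (440 / 10) with hN
  set x : ℕ := l + 2 * l / N + 1 with hx
  have hNpos : 0 < N := by positivity
  set S : ℝ := 17592186044416 with hS
  have hSpos : 0 < S := by rw [hS]; norm_num
  have h244 : (2 : ℝ) ^ 44 = S := by rw [hS]; norm_num
  have hx1 : (x : ℝ) / S ≤ 1 := by
    rw [div_le_one hSpos]
    have : ((2 * x : ℕ) : ℝ) ≤ ((17592186044416 : ℕ) : ℝ) := by exact_mod_cast hc1
    push_cast at this
    have hx0 : (0 : ℝ) ≤ x := by positivity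
    rw [hS]
    linarith
  have hx0 : 0 ≤ (x : ℝ) / S := by positivity
  have hE0 : Real.exp ((x : ℝ) / S) ≤ (dig E 0 : ℝ) / S := by
    refine CK_exp hx0 hx1 ?_
    have h1 := CK_cast _ _ _ hc2
    rw [show ((17592186044416 : ℕ) : ℝ) = S by rw [hS]; norm_num] at h1
    rw [le_div_iff₀ hSpos]
    have h2 : (1 + (x : ℝ) / S + ((x : ℝ) / S) ^ 2 / 2 + ((x : ℝ) / S) ^ 3 / 6 +
        ((x : ℝ) / S) ^ 4 / 24 + ((x : ℝ) / S) ^ 5 / 96) * S =
        (96 * S ^ 5 + 96 * x * S ^ 4 + 48 * x ^ 2 * S ^ 3 + 16 * x ^ 3 * S ^ 2 +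
          4 * x ^ 4 * S + x ^ 5) / (96 * S ^ 4) := by
      field_simp
      ring
    rw [h2, div_le_iff₀ (by positivity)]
    exact h1
  have hind : ∀ k, k ≤ 10 → Real.exp ((x : ℝ) / S) * (((l : ℝ) / S) ^ k / (k.factorial : ℝ)) ≤
      (dig E k : ℝ) / S := by
    intro k
    induction k with
    | zero =>
      intro _
      simpa using hE0
    | succ k ih =>
      intro hk
      have h3 := CK_allB 10 _ hc3 k (by omega)
      rw [Nat.ble_eq] at h3
      have h4 : ((dig E k * l : ℕ) : ℝ) ≤ ((dig E (k + 1) * ((k + 1) * 17592186044416) : ℕ) : ℝ) := by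
        exact_mod_cast h3
      push_cast at h4
      rw [← hS] at h4
      exact CK_step hSpos (by positivity) (ih (by omega)) h4
  rw [h244] at hsig
  obtain ⟨hV, hek, hVi⟩ := hEB s t ((l : ℝ) / S) h40 hst hsig
  intro k hk
  rw [h244]
  refine le_trans ?_ (hind k hk)
  obtain ⟨hek0, hek1⟩ := hek k
  have h5 : (l : ℝ) / S * (1 + 2 / 2 ^ 44) ≤ (x : ℝ) / S := by
    have h6 : (2 : ℝ) * l / N ≤ ((2 * l / N : ℕ) : ℝ) + 1 := by
      rw [div_le_iff₀ (by exact_mod_cast hNpos)]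
      have h7 : 2 * l < (2 * l / N + 1) * N := by
        rw [Nat.add_mul, one_mul]
        exact Nat.lt_div_mul_add hNpos
      exact_mod_cast h7.le
    have h8 : ((N : ℕ) : ℝ) = 2 ^ 44 := by rw [hN]; norm_num
    rw [← h8, div_mul_eq_mul_div]
    refine div_le_div_of_nonneg_right ?_ hSpos.le
    rw [hx]
    push_cast
    have h9 : (l : ℝ) * (1 + 2 / N) = l + 2 * l / N := by ring
    rw [h9]
    linarith
  have h10 : 1 / V (PB s t) ≤ Real.exp ((x : ℝ) / S) :=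
    le_trans hVi (Real.exp_le_exp.2 h5)
  rw [div_eq_mul_one_div, mul_comm]
  have h11 : 0 ≤ 1 / V (PB s t) := by positivity
  exact mul_le_mul h10 hek1 hek0 (Real.exp_pos _).le

end Pool.Agent.CHS
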