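import Pool.Agent.helper27.CHS.Spec

/-!
Project chs (MP_5628fe_nt), row ST: one step of the tables (the proof of WSTT, helper11/SY/WSTT.lean, and of
STT, helper61/SX/STT.lean).
-/

set_option autoImplicit false

open Finset

namespace Pool.Agent.CHS

open Finset Pool.Agent.SX

theorem ST_allB (p : ℕ → Bool) (n : ℕ) (h : allB n p = true) : ∀ i < n, p i = true := by
  induction n with
  | zero =>
    intro i hi
    omega
  | succ n ih =>
    have h1 : allB (n + 1) p = and (p n) (allB n p) := rfl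
    rw [h1, Bool.and_eq_true] at h
    intro i hi
    rcases Nat.lt_succ_iff_lt_or_eq.mp hi with h2 | h2
    · exact ih h.2 i h2
    · rw [h2]
      exact h.1

theorem ST_val (s t : ℝ) (E : ℕ) (hE : EOK s t E) (r : ℕ) (hr : r < 10) (d : ℕ → ℕ) (T : ℕ)
    (hsum : ∑ j ∈ range (r + 1), dig E j * d j + dig E (r + 1) * 2 ^ 40 ≤ T * 17592186044416) :
    (∑ k ∈ range (r + 1), ek (PB s t) k * ((d k : ℝ) / 2 ^ 40) + ek (PB s t) (r + 1)) /
      V (PB s t) ≤ (T : ℝ) / 2 ^ 40 := by
  have h1 : (∑ k ∈ range (r + 1), ek (PB s t) k * ((d k : ℝ) / 2 ^ 40) + ek (PB s t) (r + 1)) /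
      V (PB s t) = ∑ k ∈ range (r + 1), (ek (PB s t) k / V (PB s t)) * ((d k : ℝ) / 2 ^ 40) +
        ek (PB s t) (r + 1) / V (PB s t) := by
    rw [add_div, Finset.sum_div]
    congr 1
    refine Finset.sum_congr rfl (fun k _ => ?_)
    ring
  have h2 : ∑ k ∈ range (r + 1), (ek (PB s t) k / V (PB s t)) * ((d k : ℝ) / 2 ^ 40) ≤
      ∑ k ∈ range (r + 1), ((dig E k : ℝ) / 2 ^ 44) * ((d k : ℝ) / 2 ^ 40) := by
    refine Finset.sum_le_sum (fun k hk => ?_)
    rw [Finset.mem_range] at hk
    exact mul_le_mul_of_nonneg_right (hE k (by omega)) (by positivity)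
  have h3 : ek (PB s t) (r + 1) / V (PB s t) ≤ (dig E (r + 1) : ℝ) / 2 ^ 44 :=
    hE (r + 1) (by omega)
  have h4 : (∑ j ∈ range (r + 1), (dig E j : ℝ) * (d j : ℝ)) + (dig E (r + 1) : ℝ) * 2 ^ 40 ≤
      (T : ℝ) * 17592186044416 := by
    have h5 : ((∑ j ∈ range (r + 1), dig E j * d j + dig E (r + 1) * 2 ^ 40 : ℕ) : ℝ) ≤
        ((T * 17592186044416 : ℕ) : ℝ) := by
      exact_mod_cast hsum
    push_cast at h5
    have h9 : (2 : ℝ) ^ 40 = 1099511627776 := by norm_num
    rw [h9]
    exact h5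
  have h6 : ∑ k ∈ range (r + 1), ((dig E k : ℝ) / 2 ^ 44) * ((d k : ℝ) / 2 ^ 40) =
      (∑ j ∈ range (r + 1), (dig E j : ℝ) * (d j : ℝ)) / 2 ^ 84 := by
    rw [Finset.sum_div]
    refine Finset.sum_congr rfl (fun k _ => ?_)
    ring
  rw [h1]
  rw [h6] at h2
  have h7 : (T : ℝ) / 2 ^ 40 = ((T : ℝ) * 17592186044416) / 2 ^ 84 := by
    have : (17592186044416 : ℝ) = 2 ^ 44 := by norm_num
    rw [this]
    ring
  have h8 : (dig E (r + 1) : ℝ) / 2 ^ 44 = ((dig E (r + 1) : ℝ) * 2 ^ 40) / 2 ^ 84 := by ring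
  calc _ ≤ (∑ j ∈ range (r + 1), (dig E j : ℝ) * (d j : ℝ)) / 2 ^ 84 +
        ((dig E (r + 1) : ℝ) * 2 ^ 40) / 2 ^ 84 := by
        rw [← h8]
        exact add_le_add h2 h3
    _ = ((∑ j ∈ range (r + 1), (dig E j : ℝ) * (d j : ℝ)) + (dig E (r + 1) : ℝ) * 2 ^ 40) /
        2 ^ 84 := by rw [add_div]
    _ ≤ ((T : ℝ) * 17592186044416) / 2 ^ 84 :=
        div_le_div_of_nonneg_right h4 (by positivity)
    _ = _ := h7.symm

/-- Row ST. -/
theorem ST (_hPA : PA_stmt) (hMB : MB_stmt) (hBS : BS_stmt) (hGOS : Pool.Agent.SX.GOS_stmt) :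
    ST_stmt := by
  intro x w a L U L' U' E hx hw hxa ha0 hE hT hL hU
  obtain ⟨hTL, hTU⟩ := hT
  obtain ⟨hmonL', hmonU', htriv', -⟩ := hMB
  set b : ℕ := a + 1 with hb
  have hb1 : 1 ≤ b := by omega
  have hhh : (a : ℝ) * w ≤ (b : ℝ) * w := by
    apply mul_le_mul_of_nonneg_right _ hw.le
    rw [hb]
    push_cast
    linarith
  have hsub : ∀ i k : ℕ, k * b ≤ i →
      (i : ℝ) * w - (k : ℝ) * ((b : ℝ) * w) = ((i - k * b : ℕ) : ℝ) * w := by
    intro i k hk
    rw [Nat.cast_sub hk]
    push_cast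
    ring
  have hle : ∀ i r : ℕ, (r + 1) * b ≤ i → (r : ℝ) * ((b : ℝ) * w) ≤ (i : ℝ) * w := by
    intro i r hr
    rw [← mul_assoc]
    apply mul_le_mul_of_nonneg_right _ hw.le
    have h1 : r * b ≤ i := le_trans (Nat.mul_le_mul_right b (Nat.le_succ r)) hr
    exact_mod_cast h1
  constructor
  · intro i hi
    have h1 := ST_allB _ 601 hL i hi
    rw [Bool.or_eq_true] at h1
    rcases h1 with h1 | h1
    · have h2 : 1099511627776 ≤ dig L' i := Nat.le_of_ble_eq_true h1
      refine hmonL' x _ ((i : ℝ) * w) ((i : ℝ) * w) 1 _ hx le_rfl ?_ (htriv' _ _ _)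
      have h3 : (1099511627776 : ℝ) ≤ (dig L' i : ℝ) := by exact_mod_cast h2
      rw [le_div_iff₀ (by positivity)]
      have h4 : (2 : ℝ) ^ 40 = 1099511627776 := by norm_num
      rw [h4, one_mul]
      exact h3
    · rw [Bool.and_eq_true] at h1
      obtain ⟨h2, h3⟩ := h1
      have h2' : 2 * b ≤ i := Nat.le_of_ble_eq_true h2
      obtain ⟨r, hr10, hpar, hra, hsum⟩ :=
        hGOS E b _ 10 L U false 0 i 0 hb1 (by omega) h3
      have hodd : Odd r := by
        rw [← Nat.not_even_iff_odd]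
        intro hev
        exact Bool.false_ne_true (hpar.mpr hev)
      simp only [Nat.zero_add] at hsum
      have hkey := (hBS x ((a : ℝ) * w) ((b : ℝ) * w) ((i : ℝ) * w) r
        (fun k => ((dig (if Even k then L else U) (i - k * b) : ℕ) : ℝ) / 2 ^ 40)
        hx hxa hhh (hle i r hra)).1 hodd ?_
      · refine hmonL' x _ ((i : ℝ) * w) ((i : ℝ) * w) _ _ hx le_rfl ?_ hkey
        exact ST_val _ _ E hE r hr10 (fun k => dig (if Even k then L else U) (i - k * b)) _ hsum
      · intro k hk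
        have hka : (k + 1) * b ≤ i := le_trans (Nat.mul_le_mul_right b (by omega)) hra
        have hka' : k * b + b ≤ i := by
          have := Nat.succ_mul k b
          rw [Nat.succ_eq_add_one] at this
          omega
        constructor
        · intro hev
          simp only [if_pos hev]
          rw [hsub i k (by omega)]
          exact hTL _ (by omega)
        · intro hod
          simp only [if_neg (Nat.not_even_iff_odd.mpr hod)]
          rw [hsub i k (by omega)]
          exact hTU _ (by omega) (by omega)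
  · intro i hai hi
    have h1 := ST_allB _ 601 hU i hi
    rw [Bool.or_eq_true] at h1
    have h3 : go E b (dig U' i * 17592186044416) 10 U L true 0 i 0 = true := by
      rcases h1 with h1 | h1
      · exfalso
        have h2 : i < b := by
          have h4 : Nat.ble (i + 1) b = true := h1
          exact Nat.le_of_ble_eq_true h4
        omega
      · exact h1
    obtain ⟨r, hr10, hpar, hra, hsum⟩ :=
      hGOS E b _ 10 U L true 0 i 0 hb1 hai h3
    have hev : Even r := hpar.mp rfl
    simp only [Nat.zero_add] at hsum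
    have hkey := (hBS x ((a : ℝ) * w) ((b : ℝ) * w) ((i : ℝ) * w) r
      (fun k => ((dig (if Even k then U else L) (i - k * b) : ℕ) : ℝ) / 2 ^ 40)
      hx hxa hhh (hle i r hra)).2 hev ?_
    · refine hmonU' x _ ((i : ℝ) * w) ((i : ℝ) * w) _ _ hx le_rfl ?_ hkey
      exact ST_val _ _ E hE r hr10 (fun k => dig (if Even k then U else L) (i - k * b)) _ hsum
    · intro k hk
      have hka : (k + 1) * b ≤ i := le_trans (Nat.mul_le_mul_right b (by omega)) hra
      have hka' : k * b + b ≤ i := by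
        have := Nat.succ_mul k b
        rw [Nat.succ_eq_add_one] at this
        omega
      constructor
      · intro hev
        simp only [if_pos hev]
        rw [hsub i k (by omega)]
        exact hTU _ (by omega) (by omega)
      · intro hod
        simp only [if_neg (Nat.not_even_iff_odd.mpr hod)]
        rw [hsub i k (by omega)]
        exact hTL _ (by omega)

end Pool.Agent.CHS
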